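import Mathlib
import Pool.Agent.R419.KL.Rank

/-!
# The truncated averages of the ranks of the cubic twists over `ℚ(√-3)`

`K` is the field of third roots of unity, `E_D : y² + D y = x³`, and `D` runs through all the cube-free
`D = 1` modulo `3` of `𝓞 K` whose norm is not `1` modulo `9`, ordered by the norm; there are at least
`c X` such `D` of norm at most `X`.

* For every `B` and all large `X` the average of `min (rank E_D(K)) B` over the `D` of norm at most `X`
  is at most `0.818`.
* For all large `X` at least 63.9% of the `E_D` have rank `0`, and at least 95.85% have rank `0`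
  or `2` (all the ranks are even).

Proof: the exact law of the Selmer groups of `√-3`. Built on the work of helper31, helper275,
helper968, helper994, helper170, helper697, helper363, helper710, helper804, helper528, helper85,
helper688, helper474, helper433, helper550, helper699, helper145, helper350, helper696 and helper703
(projects XK, XL, squarefree `D`) and of the seats named in the headers of `Pool/Agent/Y703/CT` and of
the files imported by `Pool/Agent/Y696/CTK/Fin.lean`; cube-free `D`: helper419.
-/

set_option autoImplicit false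

namespace Pool.Agent.Results.MP_81dc49_nt.CubicTwistAverageRank

open NumberField WeierstrassCurve Filter
open scoped Classical

variable {K : Type} [Field K] [NumberField K]

/-- The curve `E_D : y² + D y = x³`. -/
def curve {K : Type} [Field K] (D : K) : WeierstrassCurve K := ⟨0, 0, D, 0, 0⟩

/-- The rank of `E_D(K)` over `ℤ`. -/
noncomputable def rank (D : K) : ℕ := Module.finrank ℤ (curve D).toAffine.Point

/-- `D` is cube-free and `1` modulo `3`, and its norm is not `1` modulo `9`. -/
def InClass (D : 𝓞 K) : Prop :=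
  (3 : 𝓞 K) ∣ D - 1 ∧ (∀ x : 𝓞 K, x ^ 3 ∣ D → IsUnit x) ∧ ¬ (9 : ℤ) ∣ Algebra.norm ℤ D - 1

/-- The `D` of the class of norm at most `X`. -/
def upTo (K : Type) [Field K] [NumberField K] (X : ℕ) : Set (𝓞 K) :=
  {D : 𝓞 K | Algebra.norm ℤ D ≤ X ∧ InClass D}

/-- The proportion of the `D` with the property `P` among the `D` of the class of norm at most
`X`. -/
noncomputable def proportion (P : 𝓞 K → Prop) (X : ℕ) : ℝ :=
  ({D : 𝓞 K | Algebra.norm ℤ D ≤ X ∧ InClass D ∧ P D}.ncard : ℝ) / ((upTo K X).ncard : ℝ)

theorem result (K : Type) [Field K] [NumberField K] [IsCyclotomicExtension {3} ℚ K] :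
    (∃ c : ℝ, 0 < c ∧ ∃ X₀ : ℕ, ∀ X : ℕ, X₀ ≤ X → c * X ≤ ((upTo K X).ncard : ℝ)) ∧
    (∀ B : ℕ, ∀ᶠ X : ℕ in atTop,
      ∑ᶠ D ∈ upTo K X, ((min (rank (D : K)) B : ℕ) : ℝ) ≤ 0.818 * ((upTo K X).ncard : ℝ)) ∧
    (∀ᶠ X : ℕ in atTop,
      0.639 ≤ proportion (fun D : 𝓞 K => rank (D : K) = 0) X ∧
      0.9585 ≤ proportion (fun D : 𝓞 K => rank (D : K) = 0 ∨ rank (D : K) = 2) X) :=
  ⟨(Pool.Agent.R419.KF.final K).1, fun B => Pool.Agent.R419.KL.trunc K B,
    (Pool.Agent.R419.KL.ranks_num K).mono fun X hX => ⟨hX.1, hX.2.1⟩⟩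

end Pool.Agent.Results.MP_81dc49_nt.CubicTwistAverageRank
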