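import Pool.Agent.R432.JG.One

/-!
# Rank zero over many linearly disjoint fields of degree `3 ^ k`: the binomial law and the law of large
# numbers

`E_D : y² + D y = x³` (`3`-isogenous to `x³ + y³ = D`).  `U_1, ..., U_r` are disjoint sets of `k` primes
`≡ 1` modulo `9`, and `L_i = ℚ(∛l : l ∈ U_i)`, a field of degree `3 ^ k`.  `D` runs through the squarefree
numbers, prime to `3` and to the elements of the `U_i`, not `±1` modulo `9`, divisible by exactly one prime
`2` modulo `3`, with `E_D(ℚ)` finite and `Ш(E_D / ℚ)[3^∞] = 0` (a proportion `c = ∏_{j ≥ 1} (1 - 3^{-j})`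
of all these `D`), ordered by size.  The set `U_i` is called good for `D` if for all the `3 ^ k` cubic
twists `E_{D'}`, `D' = D ∏_{l ∈ U_i} l^{t_l}`, `t_l = 0, 1, 2`, also `E_{D'}(ℚ)` is finite and
`Ш(E_{D'} / ℚ)[3^∞] = 0`.  We prove:

* if `U_i` is good for `D` then `E_D(L_i)` is finite and `Ш(E_D / L_i)[3^∞]` is killed by `3 ^ k`;
* the number of the good sets has in the limit exactly the binomial law `B(r, c^(3^k - 1))`;
* for all `k` and `ε > 0` there is `r₀` such that for `r ≥ r₀`, for all but a proportion `ε` of the `D`,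
  the group `E_D(L_i)` is finite for at least `(c^(3^k - 1) - ε) r` of the `r` fields `L_i`.

The proof.  The joint law of the residue matrices of all the cubic twists of `E_D` by the elements of
`⋃ U_i` (project JL, see `MP_f50388_nt/FixedCubicRadicalFields`), applied to the set of the
`1 + r (3 ^ k - 1)` exponent vectors that are supported in one of the `U_i`; the descent over `L_i`.

Authors of the parts of project JL: helper962, helper159, helper152, helper916, helper258, helper432; the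
binomial law and the law of large numbers for independent events are from `R413/MQ/Bin.lean` (helper413).
-/

set_option autoImplicit false

namespace Pool.Agent.Results.MP_81dc49_nt.DisjointCubicRadicalFields

open NumberField Filter Topology
open scoped Classical

/-- The curve `E_D : y² + D y = x³` over `L`. -/
def curve (D : ℕ) (L : Type) [Field L] : WeierstrassCurve L := ⟨0, 0, (D : L), 0, 0⟩

/-- `U_1, ..., U_r` are disjoint sets of `k` primes `≡ 1` modulo `9`. -/
def Blocks {r : ℕ} (k : ℕ) (U : Fin r → Finset ℕ) : Prop :=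
  (∀ i, (U i).card = k) ∧ (∀ i j, i ≠ j → Disjoint (U i) (U j)) ∧
    ∀ i, ∀ l ∈ U i, l.Prime ∧ l % 9 = 1

/-- `D` is squarefree, not divisible by `3`, not `±1` modulo `9`, not divisible by the elements of the
`U i`, and divisible by exactly one prime that is `2` modulo `3`. -/
def InClass {r : ℕ} (U : Fin r → Finset ℕ) (D : ℕ) : Prop :=
  Squarefree D ∧ ¬ 3 ∣ D ∧ D % 9 ≠ 1 ∧ D % 9 ≠ 8 ∧ (∀ i, ∀ l ∈ U i, ¬ l ∣ D) ∧
    ∃ q : ℕ, q.Prime ∧ q % 3 = 2 ∧ q ∣ D ∧ ∀ p : ℕ, p.Prime → p ∣ D → p ≠ q → p % 3 = 1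

/-- The number `D ∏_{l ∈ S} l ^ (t l)` with exponents `0`, `1`, `2`. -/
def twist (S : Finset ℕ) (D : ℕ) (t : {l : ℕ // l ∈ S} → ZMod 3) : ℕ :=
  D * ∏ l : {l : ℕ // l ∈ S}, l.1 ^ (t l).val

/-- `E_D(ℚ)` is finite and the `3`-primary part of `Ш(E_D / ℚ)` is zero. -/
def TrivialThree (D : ℕ) : Prop :=
  Finite (curve D ℚ).toAffine.Point ∧
    ∀ (n : ℕ) (x : Pool.Agent.TH841.SH.D.Sha (curve D ℚ)), 3 ^ n • x = 0 → x = 0

/-- All the `3 ^ k` cubic twists by the numbers with prime factors in `S` have this property. -/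
def Good (S : Finset ℕ) (D : ℕ) : Prop :=
  ∀ t : {l : ℕ // l ∈ S} → ZMod 3, TrivialThree (twist S D t)

/-- `L` is generated by cube roots of the elements of `S`. -/
def Generated (S : Finset ℕ) (L : Type) [Field L] : Prop :=
  ∃ r : ℕ → L, (∀ l ∈ S, r l ^ 3 = (l : L)) ∧ ∀ F : Subfield L, (∀ l ∈ S, r l ∈ F) → F = ⊤

/-- Over every number field `L = ℚ(∛l : l ∈ S)` (there is one) the group `E_D(L)` is finite. -/
def ZeroOver (S : Finset ℕ) (D : ℕ) : Prop :=
  (∃ (L : Type) (_ : Field L) (_ : NumberField L), Generated S L) ∧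
  ∀ (L : Type) [Field L] [NumberField L], Generated S L → Finite (curve D L).toAffine.Point

/-- The number of the `i` such that `U i` is good for `D`. -/
noncomputable def good {r : ℕ} (U : Fin r → Finset ℕ) (D : ℕ) : ℕ :=
  (Finset.univ.filter fun i => Good (U i) D).card

/-- The number of the `i` such that `E_D` has rank zero over `L_i`. -/
noncomputable def zeros {r : ℕ} (U : Fin r → Finset ℕ) (D : ℕ) : ℕ :=
  (Finset.univ.filter fun i => ZeroOver (U i) D).card

/-- The number of the `D ≤ X` in the class, with `TrivialThree D`, with the property `Q`. -/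
noncomputable def num {r : ℕ} (U : Fin r → Finset ℕ) (Q : ℕ → Prop) (X : ℕ) : ℕ :=
  ((Finset.Icc 1 X).filter fun D => InClass U D ∧ TrivialThree D ∧ Q D).card

/-- `c = ∏_{i ≥ 1} (1 - 3^{-i})`. -/
noncomputable def c : ℝ := ∏' i : ℕ, (1 - (1 / 3 : ℝ) ^ (i + 1))

section proof

open Pool.Agent.R432.JG (Cl cl_iff Fg GU triv_iff tw_cls pre_of twN all_good pat_U exists_gen)
open Pool.Agent.R413.MQ.Bin (cnt cnt_card cnt_congr N law_eq lln cnt_union)

variable {r k : ℕ} {U : Fin r → Finset ℕ}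

/-- the union of the sets -/
noncomputable def un (U : Fin r → Finset ℕ) : Finset ℕ := Finset.univ.biUnion U

theorem sub_un (i : Fin r) : U i ⊆ un U := Finset.subset_biUnion_of_mem U (Finset.mem_univ i)

theorem un_prime (h : Blocks k U) : ∀ l ∈ un U, l.Prime ∧ l % 9 = 1 := by
  intro l hl
  obtain ⟨i, -, hi⟩ := Finset.mem_biUnion.1 hl
  exact h.2.2 i l hi

theorem class_iff (D : ℕ) : InClass U D ↔ Cl (un U) D := by
  rw [cl_iff]
  unfold InClass un
  have h : (∀ i, ∀ l ∈ U i, ¬ l ∣ D) ↔ ∀ l ∈ Finset.univ.biUnion U, ¬ l ∣ D := by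
    constructor
    · intro h l hl
      obtain ⟨i, -, hi⟩ := Finset.mem_biUnion.1 hl
      exact h i l hi
    · intro h i l hl
      exact h l (Finset.mem_biUnion.2 ⟨i, Finset.mem_univ i, hl⟩)
  rw [h]

theorem cl_sub {D : ℕ} (h : Cl (un U) D) (i : Fin r) : Cl (U i) D :=
  ⟨h.1, h.2.1, fun l hl => h.2.2 l (sub_un i hl)⟩

theorem trivial_iff {D : ℕ} (hC : Pool.Agent.Y703.CT.Cls D) :
    TrivialThree D ↔ Pool.Agent.Y703.CT.NoSplit D := triv_iff hC

theorem good_iff (h : Blocks k U) {D : ℕ} (hD : Cl (un U) D) (i : Fin r) :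
    Good (U i) D ↔ GU U i D := by
  have h1 : ∀ t : {l : ℕ // l ∈ U i} → ZMod 3,
      TrivialThree (twist (U i) D t) ↔ Pool.Agent.Y703.CT.NoSplit (twN D (U i) t) := fun t =>
    trivial_iff (tw_cls (t := t) hD.2.1 (pre_of (h.2.2 i) (cl_sub hD i)))
  unfold Good GU
  exact forall_congr' h1

theorem num_eq (Q : ℕ → Prop) (X : ℕ) : num U Q X = cnt (Fg (un U)) Q X := by
  unfold num
  symm
  refine cnt_card fun D => ?_
  rw [Finset.mem_filter]
  unfold Fg
  rw [class_iff]
  constructor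
  · rintro ⟨h1, h2, h3, h4⟩
    exact ⟨h1, ⟨h2, (trivial_iff h2.2.1).1 h3⟩, h4⟩
  · rintro ⟨h1, ⟨h2, h3⟩, h4⟩
    exact ⟨h1, h2, (trivial_iff h2.2.1).2 h3, h4⟩

theorem overS {S : Finset ℕ} (hS : ∀ l ∈ S, l.Prime ∧ l % 9 = 1) {D : ℕ} (hD : Cl S D)
    (hg : Good S D) (L : Type) [Field L] [NumberField L] (hL : Generated S L) :
    Module.finrank ℚ L = 3 ^ S.card ∧ Finite (curve D L).toAffine.Point ∧
    ∀ (n : ℕ) (x : Pool.Agent.TH841.NF.D.Sha (curve D L)), 3 ^ n • x = 0 → 3 ^ S.card • x = 0 := by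
  obtain ⟨r, hr, hgen⟩ := hL
  have hp := pre_of hS hD
  obtain ⟨h1, h2, h3, -⟩ := all_good hD.2.1 hp
    (fun t => (trivial_iff (tw_cls (t := t) hD.2.1 hp)).1 (hg t)) r hr hgen
  exact ⟨h1, h2, h3⟩

end proof

open Pool.Agent.R432.JG (Cl cl_iff Fg GU pat_U exists_gen)
open Pool.Agent.R413.MQ.Bin (cnt cnt_card cnt_congr N law_eq lln cnt_union)

/-- **Main theorem.** -/
theorem result (k : ℕ) :
    (∀ (r : ℕ) (U : Fin r → Finset ℕ), Blocks k U →
      (∃ c' : ℝ, 0 < c' ∧ ∃ X₀ : ℕ, ∀ X : ℕ, X₀ ≤ X →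
        c' * X / Real.sqrt (Real.log X) ≤ (num U (fun _ => True) X : ℝ)) ∧
      (∀ D : ℕ, InClass U D → ∀ i, Good (U i) D → ZeroOver (U i) D ∧
        ∀ (L : Type) [Field L] [NumberField L], Generated (U i) L →
          Module.finrank ℚ L = 3 ^ k ∧
          ∀ (n : ℕ) (x : Pool.Agent.TH841.NF.D.Sha (curve D L)), 3 ^ n • x = 0 → 3 ^ k • x = 0) ∧
      (∀ j : ℕ, Tendsto (fun X : ℕ => (num U (fun D => good U D = j) X : ℝ) /
        (num U (fun _ => True) X : ℝ)) atTop
        (𝓝 ((r.choose j : ℝ) * (c ^ (3 ^ k - 1)) ^ j * (1 - c ^ (3 ^ k - 1)) ^ (r - j))))) ∧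
    (∀ ε : ℝ, 0 < ε → ∃ r₀ : ℕ, ∀ r : ℕ, r₀ ≤ r → ∀ U : Fin r → Finset ℕ, Blocks k U →
      ∃ X₀ : ℕ, ∀ X : ℕ, X₀ ≤ X →
        (1 - ε) * (num U (fun _ => True) X : ℝ) ≤
          (num U (fun D => (c ^ (3 ^ k - 1) - ε) * r ≤ (zeros U D : ℝ)) X : ℝ)) ∧
    (0.56 : ℝ) < c ∧ c < 1 := by
  have hc1 : (0.56 : ℝ) < c := Pool.Agent.R432.JG.c3_gt
  have hc2 : c < 1 := Pool.Agent.Y461.CX.t_C3.2.2.1
  have hc0 : (0 : ℝ) < c := by linarith
  set p : ℝ := c ^ (3 ^ k - 1) with hp
  have hp0 : (0 : ℝ) ≤ p := by positivity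
  have hp1 : p ≤ 1 := pow_le_one₀ hc0.le hc2.le
  have hcard : ∀ r : ℕ, (Finset.univ : Finset (Fin r)).card = r := fun r => by
    rw [Finset.card_univ, Fintype.card_fin]
  have hg : ∀ (r : ℕ) (U : Fin r → Finset ℕ), Blocks k U → ∀ D : ℕ, Fg (un U) D →
      good U D = N (Finset.univ : Finset (Fin r)) (GU U) D := by
    intro r U hU D hD
    unfold good N
    refine congrArg Finset.card ?_
    ext i
    rw [Finset.mem_filter, Finset.mem_filter]
    exact and_congr_right fun _ => good_iff hU hD.1 i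
  have hz : ∀ (r : ℕ) (U : Fin r → Finset ℕ), Blocks k U → ∀ D : ℕ, Cl (un U) D → ∀ i,
      Good (U i) D → ZeroOver (U i) D ∧
        ∀ (L : Type) [Field L] [NumberField L], Generated (U i) L →
          Module.finrank ℚ L = 3 ^ k ∧
          ∀ (n : ℕ) (x : Pool.Agent.TH841.NF.D.Sha (curve D L)), 3 ^ n • x = 0 →
            3 ^ k • x = 0 := by
    intro r U hU D hD i hi
    have h1 := fun (L : Type) [Field L] [NumberField L] (hL : Generated (U i) L) =>
      overS (hU.2.2 i) (cl_sub hD i) hi L hL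
    refine ⟨⟨?_, fun L _ _ hL => (h1 L hL).2.1⟩, fun L _ _ hL => ?_⟩
    · obtain ⟨L, i1, i2, ρ, h2, h3⟩ := exists_gen (U i)
      exact ⟨L, i1, i2, ρ, h2, h3⟩
    · have h2 := h1 L hL
      rw [hU.1 i] at h2
      exact ⟨h2.1, h2.2.2⟩
  have hgz : ∀ (r : ℕ) (U : Fin r → Finset ℕ), Blocks k U → ∀ D : ℕ, Fg (un U) D →
      good U D ≤ zeros U D := by
    intro r U hU D hD
    refine Finset.card_le_card fun i hi => ?_
    rw [Finset.mem_filter] at hi ⊢
    exact ⟨hi.1, (hz r U hU D hD.1 i hi.2).1⟩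
  have hpat : ∀ (r : ℕ) (U : Fin r → Finset ℕ), Blocks k U →
      ∀ V ⊆ (Finset.univ : Finset (Fin r)), Tendsto (fun X : ℕ => (cnt (Fg (un U))
        (fun D => ∀ i ∈ (Finset.univ : Finset (Fin r)), (GU U i D ↔ i ∈ V)) X : ℝ) /
        (cnt (Fg (un U)) (fun _ => True) X : ℝ)) atTop
        (𝓝 (p ^ V.card * (1 - p) ^ ((Finset.univ : Finset (Fin r)).card - V.card))) :=
    fun r U hU => pat_U (un_prime hU) sub_un hU.1 hU.2.1 Finset.univ
  refine ⟨fun r U hU => ⟨?_, fun D hD i hi => hz r U hU D ((class_iff D).1 hD) i hi, fun j => ?_⟩,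
    fun ε hε => ?_, hc1, hc2⟩
  · -- the size of the family
    obtain ⟨c₀, hc₀, X₀, hlow⟩ := Pool.Agent.R432.JG.low (un_prime hU)
    have h1 := Pool.Agent.R432.JG.law_cnt (un_prime hU) {0}
    rw [Finset.card_singleton, pow_one] at h1
    have e1 : ∀ X, cnt (Cl (un U)) (fun D => ∀ i ∈ ({0} : Finset ({l : ℕ // l ∈ un U} → ZMod 3)),
        Pool.Agent.Y703.CT.NoSplit (Pool.Agent.R432.JG.twN D (un U) i)) X =
        num U (fun _ => True) X := by
      intro X
      rw [num_eq, Pool.Agent.R432.JG.cnt_Fg]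
      refine cnt_congr (fun D _ => ?_) X
      simp only [Finset.mem_singleton, forall_eq]
      rw [Pool.Agent.R432.JG.twN_zero, and_iff_left trivial]
    have hev := h1.eventually (lt_mem_nhds (show (0.56 : ℝ) < Pool.Agent.Y703.CX.c3 from hc1))
    obtain ⟨X₁, hX₁⟩ := Filter.eventually_atTop.1
      (hev.and (Pool.Agent.R432.JG.ev_pos (un_prime hU)))
    refine ⟨0.56 * c₀, by positivity, max X₀ X₁, fun X hX => ?_⟩
    obtain ⟨h2, h3⟩ := hX₁ X ((le_max_right _ _).trans hX)
    have h4 := hlow X ((le_max_left _ _).trans hX)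
    have e2 : (cnt (Cl (un U)) (fun _ => True) X : ℝ) =
        (((Finset.Icc 1 X).filter fun D => Cl (un U) D).card : ℝ) := by
      have : cnt (Cl (un U)) (fun _ => True) X =
          ((Finset.Icc 1 X).filter fun D => Cl (un U) D).card := by
        refine cnt_card fun D => ?_
        rw [Finset.mem_filter, and_iff_left trivial]
      rw [this]
    rw [e1, e2, lt_div_iff₀ h3] at h2
    have h5 : 0.56 * c₀ * X / Real.sqrt (Real.log X) =
        0.56 * (c₀ * X / Real.sqrt (Real.log X)) := by ring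
    rw [h5]
    linarith
  · have h := law_eq (hpat r U hU) j
    rw [hcard] at h
    refine h.congr fun X => ?_
    have e := cnt_congr (Fam := Fg (un U)) (Q := fun D => good U D = j)
      (R := fun D => N (Finset.univ : Finset (Fin r)) (GU U) D = j)
      (fun D hD => by rw [hg r U hU D hD]) X
    rw [num_eq, num_eq, e]
  · obtain ⟨n₀, hn₀⟩ := exists_nat_gt (2 * (p * (1 - p)) / (ε ^ 3))
    refine ⟨n₀ + 1, fun r hr U hU => ?_⟩
    have hTn : (n₀ : ℝ) < r := by exact_mod_cast (by omega : n₀ < r)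
    have hT0 : (0 : ℝ) < r := by exact_mod_cast (by omega : 0 < r)
    have hne : (Finset.univ : Finset (Fin r)).Nonempty := by
      rw [← Finset.card_pos, hcard]
      omega
    obtain ⟨X₀, h⟩ := lln hne hp0 hp1 (hpat r U hU) hε (show 0 < ε / 2 by linarith)
    refine ⟨X₀, fun X hX => ?_⟩
    have h1 := h X hX
    rw [hcard] at h1
    have h2 : p * (1 - p) / (ε ^ 2 * r) ≤ ε / 2 := by
      have h3 := hn₀.trans hTn
      rw [div_lt_iff₀ (by positivity)] at h3
      rw [div_le_iff₀ (by positivity)]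
      nlinarith
    have hA : (0 : ℝ) ≤ (cnt (Fg (un U)) (fun _ => True) X : ℝ) := Nat.cast_nonneg _
    have h4 := h1.trans (mul_le_mul_of_nonneg_right (b := p * (1 - p) / (ε ^ 2 * r) + ε / 2)
      (c := ε) (by linarith) hA)
    have h5 := cnt_union (Fam := Fg (un U))
      (Q := fun D => ε ≤ |(N (Finset.univ : Finset (Fin r)) (GU U) D : ℝ) / r - p|)
      (R := fun D => (p - ε) * r ≤ (zeros U D : ℝ)) (fun D hD => by
        by_cases h6 : ε ≤ |(N (Finset.univ : Finset (Fin r)) (GU U) D : ℝ) / r - p|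
        · exact Or.inl h6
        · refine Or.inr ?_
          rw [not_le, ← hg r U hU D hD] at h6
          have h7 := (abs_lt.1 h6).1
          have h8 : (p - ε) * r ≤ (good U D : ℝ) := by
            have h9 : p - ε ≤ (good U D : ℝ) / r := by linarith
            rwa [le_div_iff₀ hT0] at h9
          have h10 : (good U D : ℝ) ≤ zeros U D := by exact_mod_cast hgz r U hU D hD
          exact h8.trans h10) X
    have h6 : (cnt (Fg (un U)) (fun _ => True) X : ℝ) ≤
        (cnt (Fg (un U)) (fun D => ε ≤ |(N (Finset.univ : Finset (Fin r)) (GU U) D : ℝ) / r -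
          p|) X : ℝ) +
        (cnt (Fg (un U)) (fun D => (p - ε) * r ≤ (zeros U D : ℝ)) X : ℝ) := by exact_mod_cast h5
    rw [num_eq, num_eq]
    linarith

end Pool.Agent.Results.MP_81dc49_nt.DisjointCubicRadicalFields
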