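import Pool.Agent.R413.CK.Bd
import Pool.Agent.Results.MP_03e5d0_nt.FullClassX49

/-!
# The ranks of many quadratic twists of `X_0(49)` over `ℚ`: laws, independence and large deviations

`D ≥ 1` runs over all squarefree numbers with all prime factors `≡ 1 mod 4`, and `E_D` is the quadratic
twist by `D` of `X_0(49) : y² + x y = x³ - x² - 2 x - 1`. For `M` and `D` in the class the squarefree part
`tw M D` of `M D` is in the class, and `E_{tw M D}` is the twist by `D` of `E_M`.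

`corank D` is the corank of the matrix `mat D` over `𝔽₂`, given by Legendre symbols and quartic residue
symbols of the prime factors of `D`. For all `D` of the class the rank of `E_D(ℚ)` is at most
`2 corank D`. Let `T` be a finite set of numbers of the class. As `D` runs over the class, ordered by size:
* the numbers `corank (tw M D)`, `M ∈ T`, are independent in the limit, each with the law
  `law r = c / ∏_{i < r} (2^{i+1} - 1)`, `c = 0.4194...`;
* all the twists by `D` of the curves `E_M`, `M ∈ T`, have rank at most `2 r` for at least the proportion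
  `(∑_{i ≤ r} law i)^{|T|}` in the limit;
* the sum of the ranks over `T` is at least `2 a |T|`, where `a > mean = 0.764...`, only for a proportion
  of at most `q^{|T|}` in the limit, with `q = q(a) < 1`.
-/

set_option autoImplicit false

open Filter Topology

namespace Pool.Agent.Results.MP_81dc49_nt.GaussianTwistRanks

open Pool.Agent.TH841.NF.D (Sha)
open Pool.Agent.Results.MP_4a9ea6_nt.TwoPartTwistsX49 (E split mat)
open Pool.Agent.Results.MP_92892c_nt.FullClassTwoPartX49 (Family RankZeroShaTwo num)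
open Pool.Agent.Results.MP_03e5d0_nt.FullClassX49 (tw AnalyticRankZero c)

/-- the rank of the group of the rational points of `E_D` -/
noncomputable def rank (D : ℕ) : ℕ := Module.finrank ℤ (E D).toAffine.Point

/-- the corank of the matrix `mat D` over the field with two elements -/
noncomputable def corank (D : ℕ) : ℕ := (split D).card - (mat D).rank

/-- the law of the coranks -/
noncomputable def law (r : ℕ) : ℝ := c / ∏ i ∈ Finset.range r, ((2 : ℝ) ^ (i + 1) - 1)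

/-- the constant `0.764...`, the mean of the law -/
noncomputable def mean : ℝ := ∑' i : ℕ, 1 / ((2 : ℝ) ^ (i + 1) + 1)

section proof

open Pool.Agent.R413.SQ
open Pool.Agent.R413.MQ.Bin (cnt_card)
open Pool.Agent.R413.CK (mr mr_pr mr_hasSum mr_nonneg mu mu_bounds ldp law_le num_mono rank_corank
  corank_zero num_cnt)
open Pool.Agent.Results.MP_4a9ea6_nt.TwoPartTwistsX49 (Adm core)
open Pool.Agent.Results.MP_03e5d0_nt.FullClassX49 (sel_det an_of num_num)

theorem hc : 0.4194 < c ∧ c < 0.4195 :=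
  ⟨Pool.Agent.Y948.CQ.t_C2.2.2.2.1, Pool.Agent.Y948.CQ.t_C2.2.2.2.2⟩

theorem corank_ck (D : ℕ) : corank D = Pool.Agent.R413.CK.corank D := rfl

theorem law_mr : law = mr := by
  funext r
  rw [mr_pr]
  rfl

theorem num_joint (Q : ℕ → Prop) (X : ℕ) : num Q X = Joint.num Q X :=
  num_num (fun _ _ => Iff.rfl) X

theorem facts (D : ℕ) (hD : Family D) :
    Module.Finite ℤ (E D).toAffine.Point ∧ rank D ≤ 2 * corank D ∧
    (corank D = 0 ↔ RankZeroShaTwo D) ∧ (corank D = 0 → AnalyticRankZero D) ∧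
    (Finite (E D).toAffine.Point → (2 : ℕ∞) ^ corank D ≤ {x : Sha (E D) | x + x = 0}.encard) := by
  refine ⟨(rank_corank hD).1, (rank_corank hD).2, ?_, fun h => ?_, fun h => ?_⟩
  · rw [corank_ck, corank_zero]
    exact (sel_det hD).symm
  · exact an_of hD (corank_zero.1 h)
  · exact (core hD).2.2.2.2.2.1 h

theorem joint {T : Finset ℕ} (hT : ∀ M ∈ T, Family M) (ρ : ℕ → ℕ) :
    Tendsto (fun X : ℕ => (num (fun D => ∀ M ∈ T, corank (tw M D) = ρ M) X : ℝ) /
        (num (fun _ => True) X : ℝ)) atTop (𝓝 (∏ M ∈ T, law (ρ M))) := by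
  rw [law_mr]
  refine (Pool.Agent.R413.CK.law hT ρ).congr fun X => ?_
  rw [num_joint, num_joint]
  rfl

theorem law_facts : HasSum law 1 ∧ law 0 = c ∧ law 1 = c ∧ law 2 = c / 3 ∧ law 3 = c / 21 ∧
      0.4194 < c ∧ c < 0.4195 := by
  rw [law_mr]
  obtain ⟨h0, h1, h2, h3⟩ := Pool.Agent.R413.CK.mr_sums
  exact ⟨mr_hasSum, h0, h1, h2, h3, hc⟩

theorem low {T : Finset ℕ} (hT : ∀ M ∈ T, Family M) (r : ℕ) {δ : ℝ} (hδ : 0 < δ) :
    ∃ X₀ : ℕ, ∀ X : ℕ, X₀ ≤ X →
      ((∑ i ∈ Finset.range (r + 1), law i) ^ T.card - δ) * (num (fun _ => True) X : ℝ) ≤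
        (num (fun D => ∀ M ∈ T, rank (tw M D) ≤ 2 * r) X : ℝ) := by
  obtain ⟨X₀, hX₀⟩ := eventually_atTop.1 ((law_le hT r).eventually (lt_mem_nhds
    (show (∑ i ∈ Finset.range (r + 1), mr i) ^ T.card - δ <
      (∑ i ∈ Finset.range (r + 1), mr i) ^ T.card by linarith)))
  refine ⟨X₀ + 1, fun X hX => ?_⟩
  have h1 := hX₀ X (by omega)
  have h2 : (0 : ℝ) < (Joint.num (fun _ => True) X : ℝ) := by
    classical
    obtain ⟨t, ht⟩ : ∃ t : Finset ℕ, ∀ D, D ∈ t ↔ D ∈ Finset.Icc 1 X ∧ Adm D ∧ True :=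
      ⟨(Finset.Icc 1 X).filter fun D => Adm D ∧ True, fun D => by rw [Finset.mem_filter]⟩
    have h3 : 0 < Joint.num (fun _ => True) X := by
      rw [num_cnt, cnt_card ht]
      exact Finset.card_pos.2 ⟨1, (ht 1).2
        ⟨Finset.mem_Icc.2 ⟨le_rfl, by omega⟩, ⟨squarefree_one, by simp⟩, trivial⟩⟩
    exact_mod_cast h3
  rw [lt_div_iff₀ h2] at h1
  rw [law_mr, num_joint, num_joint]
  refine h1.le.trans ?_
  have h3 : Joint.num (fun D => ∀ M ∈ T, Pool.Agent.R413.CK.corank (Joint.tw M D) ≤ r) X ≤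
      Joint.num (fun D => ∀ M ∈ T, rank (tw M D) ≤ 2 * r) X := by
    refine num_mono (fun D hD h M hM => ?_) X
    have h4 := (rank_corank (Joint.adm_tw (hT M hM) hD)).2
    have h5 := h M hM
    exact h4.trans (by omega)
  exact_mod_cast h3

theorem large {a : ℝ} (ha : mean < a) : ∃ q : ℝ, 0 < q ∧ q < 1 ∧ ∀ T : Finset ℕ,
    (∀ M ∈ T, Family M) → ∀ δ : ℝ, 0 < δ → ∃ X₀ : ℕ, ∀ X : ℕ, X₀ ≤ X →
      (num (fun D => 2 * a * (T.card : ℝ) ≤ ∑ M ∈ T, (rank (tw M D) : ℝ)) X : ℝ) ≤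
        (q ^ T.card + δ) * (num (fun _ => True) X : ℝ) := by
  obtain ⟨q, hq0, hq1, h⟩ := ldp ha
  refine ⟨q, hq0, hq1, fun T hT δ hδ => ?_⟩
  obtain ⟨X₀, h1⟩ := h T hT δ hδ
  refine ⟨X₀, fun X hX => ?_⟩
  rw [num_joint, num_joint]
  refine le_trans ?_ (h1 X hX)
  have h3 : Joint.num (fun D => 2 * a * (T.card : ℝ) ≤ ∑ M ∈ T, (rank (tw M D) : ℝ)) X ≤
      Joint.num (fun D => a * T.card ≤
        ((∑ M ∈ T, Pool.Agent.R413.CK.corank (Joint.tw M D) : ℕ) : ℝ)) X := by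
    refine num_mono (fun D hD h => ?_) X
    have h4 : ∑ M ∈ T, (rank (tw M D) : ℝ) ≤
        ∑ M ∈ T, 2 * (Pool.Agent.R413.CK.corank (Joint.tw M D) : ℝ) := by
      refine Finset.sum_le_sum fun M hM => ?_
      have h4 := (rank_corank (Joint.adm_tw (hT M hM) hD)).2
      exact_mod_cast h4
    rw [← Finset.mul_sum] at h4
    push_cast
    linarith
  exact_mod_cast h3

theorem mean_facts : 0.764 < mean ∧ mean < 0.7646 := mu_bounds

theorem tw_facts (M D : ℕ) (hM : Family M) (hD : Family D) :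
    Family (tw M D) ∧ M * D = tw M D * Nat.gcd M D ^ 2 :=
  ⟨Joint.adm_tw hM hD, (Joint.ac_tw hM hD).2⟩

end proof

theorem result :
    (∀ M D : ℕ, Family M → Family D → Family (tw M D) ∧ M * D = tw M D * Nat.gcd M D ^ 2) ∧
    (∀ D : ℕ, Family D → Module.Finite ℤ (E D).toAffine.Point ∧ rank D ≤ 2 * corank D ∧
      (corank D = 0 ↔ RankZeroShaTwo D) ∧ (corank D = 0 → AnalyticRankZero D) ∧
      (Finite (E D).toAffine.Point → (2 : ℕ∞) ^ corank D ≤ {x : Sha (E D) | x + x = 0}.encard)) ∧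
    (∀ T : Finset ℕ, (∀ M ∈ T, Family M) → ∀ ρ : ℕ → ℕ,
      Tendsto (fun X : ℕ => (num (fun D => ∀ M ∈ T, corank (tw M D) = ρ M) X : ℝ) /
        (num (fun _ => True) X : ℝ)) atTop (𝓝 (∏ M ∈ T, law (ρ M)))) ∧
    (HasSum law 1 ∧ law 0 = c ∧ law 1 = c ∧ law 2 = c / 3 ∧ law 3 = c / 21 ∧
      0.4194 < c ∧ c < 0.4195) ∧
    (∀ T : Finset ℕ, (∀ M ∈ T, Family M) → ∀ r : ℕ, ∀ δ : ℝ, 0 < δ → ∃ X₀ : ℕ, ∀ X : ℕ, X₀ ≤ X →
      ((∑ i ∈ Finset.range (r + 1), law i) ^ T.card - δ) * (num (fun _ => True) X : ℝ) ≤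
        (num (fun D => ∀ M ∈ T, rank (tw M D) ≤ 2 * r) X : ℝ)) ∧
    (∀ a : ℝ, mean < a → ∃ q : ℝ, 0 < q ∧ q < 1 ∧ ∀ T : Finset ℕ, (∀ M ∈ T, Family M) →
      ∀ δ : ℝ, 0 < δ → ∃ X₀ : ℕ, ∀ X : ℕ, X₀ ≤ X →
        (num (fun D => 2 * a * (T.card : ℝ) ≤ ∑ M ∈ T, (rank (tw M D) : ℝ)) X : ℝ) ≤
          (q ^ T.card + δ) * (num (fun _ => True) X : ℝ)) ∧
    0.764 < mean ∧ mean < 0.7646 :=
  ⟨tw_facts, facts, fun _ hT ρ => joint hT ρ, law_facts, fun _ hT r _ hδ => low hT r hδ,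
    fun _ ha => large ha, mean_facts⟩

end Pool.Agent.Results.MP_81dc49_nt.GaussianTwistRanks
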