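import Pool.Agent.Results.MP_cd906c_nt.MultiquadraticX49
import Pool.Agent.R426.QM.LawF

/-!
# The joint law of the ranks zero of the twists of `X_0(49)` over `ℚ(√-7)`, and over many fields

Let `K = ℚ(√-7)`, and let `E_D` be the quadratic twist by `D` of the curve
`y² + x y = x³ - x² - 2 x - 1` of conductor `49`, where `D` is in the class `C` of all the squarefree integers
of `K` that are congruent to `1` modulo `4` and prime to `√-7`. We call `D` good if `E_D(K)` is finite and
`Ш(E_D/K)` has no element of order two. Then the rank conjecture holds for `E_D` over `K`, with rank zero.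

* Joint law. Let `T` be any finite set of elements of `C`. When `D` varies in `C` by norm, prime to the
  elements of `T`, the set of the `N ∈ T` such that `D N` is good has in the limit exactly the law of a random
  subset of `T` in which each element is chosen with probability
  `c2 = ∏_{i ≥ 1} (1 - 2^(-i)) = 0.288...`, independently.
* Many fields. Let `L_j = K(√d_{j,1}, …, √d_{j,n})`, `j = 1, …, r`, be extensions of degree `2 ^ n` of `K` with
  `L_j ∩ L_j' = K` for `j ≠ j'`. If `r` is large in terms of `ε` (uniformly in `n` and in the fields), then for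
  all but a proportion `ε` of the good `D`, ordered by norm, `E_D` has rank zero, and the order of its
  L-function at `s = 1` is zero, over at least `(c2 ^ (2 ^ n - 1) - ε) r` of the `r` fields `L_j`.

Proof. The criterion and the extensions: `MP_cd906c_nt/MultiquadraticX49`. The law: the count of
`Pool/Agent/R426/QJ`, here for a larger finite set of excluded primes (`QJ/KEYZ.lean`, `QJ/AsyZ.lean`),
inclusion and exclusion, and the second moment (`QM/Prob.lean`).
-/

set_option autoImplicit false

namespace Pool.Agent.Results.MP_81dc49_nt.JointLawX49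

open NumberField
open Pool.Agent.Results.MP_cd906c_nt.MultiquadraticX49 (curve InClass NoSelmer Independent
  OverExtensions c2)

/-- The `D` of norm at most `X` in the class that are prime to all the elements of `T`. -/
def family {K : Type} [Field K] [NumberField K] (a : 𝓞 K) (T : Finset (𝓞 K)) (X : ℕ) :
    Set (𝓞 K) :=
  {D | Ideal.absNorm (Ideal.span {D}) ≤ X ∧ InClass a D ∧ ∀ N ∈ T, IsCoprime D N}

open Classical in
/-- The set of the `N` in `T` such that `NoSelmer` holds for the twist by `D N`. -/
noncomputable def good {K : Type} [Field K] [NumberField K] (T : Finset (𝓞 K)) (D : 𝓞 K) :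
    Finset (𝓞 K) :=
  T.filter fun N => NoSelmer (curve ((D * N : 𝓞 K) : K))

/-- The `D` of norm at most `X` in the class that are prime to all the `d j i`, such that `NoSelmer`
holds for the twist by `D`. -/
def goodBase {K : Type} [Field K] [NumberField K] (a : 𝓞 K) {J : Type} {n : ℕ}
    (d : J → Fin n → 𝓞 K) (X : ℕ) : Set (𝓞 K) :=
  {D | Ideal.absNorm (Ideal.span {D}) ≤ X ∧ InClass a D ∧ (∀ j i, IsCoprime D (d j i)) ∧
    NoSelmer (curve (D : K))}

/-- The fields `L_j = K(√d_{j,1}, …, √d_{j,n})` have degree `2 ^ n` over `K`, and `L_j ∩ L_j' = K` for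
`j ≠ j'`. -/
def Separate {K : Type} [Field K] {J : Type} {n : ℕ} (d : J → Fin n → 𝓞 K) : Prop :=
  (∀ j, Independent (d j)) ∧ ∀ j j' : J, j ≠ j' → ∀ S S' : Finset (Fin n), S.Nonempty →
    ¬ IsSquare ((∏ i ∈ S, ((d j i : 𝓞 K) : K)) * ∏ i ∈ S', ((d j' i : 𝓞 K) : K))

open Classical in
/-- The number of the fields `L_j = K(√d_{j,1}, …, √d_{j,n})` for which the statement `OverExtensions`
holds for `E_D` over `L_j`: the rank conjecture with rank zero. -/
noncomputable def numFields {K : Type} [Field K] [NumberField K] {J : Type} [Fintype J] {n : ℕ}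
    (d : J → Fin n → 𝓞 K) (D : 𝓞 K) : ℕ :=
  ((Finset.univ : Finset J).filter fun j => OverExtensions (d j) D).card

/-- **Main theorem.** Let `K = ℚ(√-7)`, that is, a number field of degree two with an integer `a` such
that `a² = a - 2`.
(1) If `N` is in the class and `NoSelmer` holds for the twist `E_N`, then `E_N(K)` is finite and the rank
conjecture holds for `E_N` over `K` (`OverExtensions` for no generators).
(2) For any finite set `T` of elements of the class and any `V ⊆ T`: among the `D` of the class prime to
the elements of `T`, ordered by norm, the proportion of those for which `V` is the set of the `N ∈ T` such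
that `NoSelmer` holds for `E_{D N}` tends to `c2 ^ #V (1 - c2) ^ (#T - #V)`.
(3) For `ε > 0` there is `r₀` such that for any `n` and any `r ≥ r₀` fields `L_j = K(√d_{j,1}, …, √d_{j,n})` of
degree `2 ^ n` over `K`, with `d_{j,i}` in the class, and with `L_j ∩ L_j' = K` for `j ≠ j'`: for all but a
proportion at most `ε` of the `D` of the class of norm at most `X` that are prime to the `d_{j,i}` and
such that `NoSelmer` holds for `E_D`, for all large `X`, the group `E_D(L_j)` is finite and the rank
conjecture holds for `E_D` over `L_j` for at least `(c2 ^ (2 ^ n - 1) - ε) r` of the `j`. -/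
theorem result (K : Type) [Field K] [NumberField K] (a : 𝓞 K) (ha : a ^ 2 = a - 2)
    (hK : Module.finrank ℚ K = 2) :
    0.288 < c2 ∧ c2 < 0.289 ∧
    (∀ (N : 𝓞 K) (d : Fin 0 → 𝓞 K), InClass a N → NoSelmer (curve (N : K)) →
      OverExtensions d N) ∧
    (∀ T : Finset (𝓞 K), (∀ N ∈ T, InClass a N) → ∀ V : Finset (𝓞 K), V ⊆ T →
      Filter.Tendsto (fun X : ℕ =>
        (({D ∈ family a T X | good T D = V}).ncard : ℝ) / ((family a T X).ncard : ℝ))
        Filter.atTop (nhds (c2 ^ V.card * (1 - c2) ^ (T.card - V.card)))) ∧
    ∀ ε : ℝ, 0 < ε → ∃ r₀ : ℕ, ∀ (n : ℕ) (J : Type) [Fintype J] (d : J → Fin n → 𝓞 K),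
      r₀ ≤ Fintype.card J → (∀ j i, InClass a (d j i)) → Separate d →
      ∀ᶠ X : ℕ in Filter.atTop, (({D ∈ goodBase a d X |
        (numFields d D : ℝ) < (c2 ^ (2 ^ n - 1) - ε) * (Fintype.card J : ℝ)}).ncard : ℝ) ≤
          ε * ((goodBase a d X).ncard : ℝ) := by
  classical
  obtain ⟨-, -, -, h3, h4⟩ := Pool.Agent.R426.QK.MOM.t_C2
  refine ⟨h3, h4, fun N d hN hS => ?_, fun T hT V hV => ?_, fun ε hε => ?_⟩
  · have hd : ∀ i, InClass a (d i) := fun i => i.elim0
    have hind : Independent d := fun T hT => by
      obtain ⟨i, -⟩ := hT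
      exact i.elim0
    have h := Pool.Agent.R426.QM.over_of ha hK hd hind (Pool.Agent.R426.QM.one_cls ha hK)
      (fun i => i.elim0) hN isCoprime_one_right (fun i => i.elim0) (fun S N' c' hN' hc' h' => by
        have hS0 : S = ∅ := Finset.eq_empty_of_isEmpty S
        rw [hS0, Finset.prod_empty, mul_one] at h'
        have h5 : N' = 1 := Pool.Agent.R426.QM.cls_unique ha hK hN'
          (Pool.Agent.R426.QM.one_cls ha hK) hc' one_ne_zero (by rw [← h']; ring)
        rw [h5, mul_one]
        exact hS)
    rwa [one_mul] at h
  · have h := Pool.Agent.R426.QM.Prob.law (Pool.Agent.R426.QM.fin_famT ha hK T)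
      (Pool.Agent.R426.QM.indNS ha hK hT) hV
    refine h.congr fun X => ?_
    congr 3
    ext D
    refine and_congr_right fun _ => ?_
    unfold good
    rw [Finset.ext_iff]
    simp only [Finset.mem_filter]
    constructor
    · intro h N
      constructor
      · rintro ⟨h5, h6⟩
        exact (h N h5).1 h6
      · intro h5
        exact ⟨hV h5, (h N (hV h5)).2 h5⟩
    · intro h N hN
      constructor
      · intro h6
        exact (h N).1 ⟨hN, h6⟩
      · intro h5
        exact ((h N).2 h5).2
  · obtain ⟨r₀, hr₀⟩ := exists_nat_ge (1 / (2 * ε ^ 3))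
    refine ⟨r₀, fun n J _ d hr hd hs => ?_⟩
    have hr1 : 1 ≤ 2 * ε ^ 3 * (Fintype.card J : ℝ) := by
      have h5 : (r₀ : ℝ) ≤ Fintype.card J := by exact_mod_cast hr
      have h6 : 1 / (2 * ε ^ 3) ≤ (Fintype.card J : ℝ) := hr₀.trans h5
      rw [div_le_iff₀ (by positivity)] at h6
      linarith
    have h := Pool.Agent.R426.QM.fields_lln ha hK d hd hs.1 hs.2 hε hr1
    filter_upwards [h] with X hX
    exact hX

end Pool.Agent.Results.MP_81dc49_nt.JointLawX49
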